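import Pool.Agent.P8H15.DS.Stm
import Pool.Agent.Y671.LD.Mid

set_option autoImplicit false

/-!
# Project DS, package MID, part one: at nice zeros the next zero is where it should be
-/

namespace Pool.Agent.P8H87.DS

open Complex Filter Topology MeasureTheory Set
open Pool.Agent.H24R2.DZ (ra NN SCount SB1a SB1b)
open Pool.Agent.Y671.LD Pool.Agent.P8H15.DS

variable {F : ℂ → ℂ}

/-- the situation at scale `j` near `t`, with a smaller margin -/
def GJ2 (F : ℂ → ℂ) (η T : ℝ) (n j : ℕ) (t : ℝ) : Prop :=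
  ∃ t' : ℝ, |t - t'| ≤ ra T (2 ^ j * n) / 200 ∧
    NN (2 ^ j * n) η (fun z => F (I * t' + ra T (2 ^ j * n) * z))

theorem nice_fol (hF : Differentiable ℂ F) {η T ε : ℝ} {n J : ℕ} (hT : 2 ≤ T) (hn : 800 ≤ n)
    (hr1 : ra T n ≤ 1)
    (hA : ∀ s : ℂ, iteratedDeriv n F s = 0 → Loc F η T n 0 J s.im →
      |s.re| ≤ 5 * ra T (2 ^ 0 * n) ∨ 5 * ra T (2 ^ J * n) < |s.re|)
    (ha : ∀ G : ℂ → ℂ, NN n η G → ∀ z : ℂ, 1 / 100 ≤ |z.re| → |z.re| ≤ 5 → |z.im| ≤ 1 / 100 →
      iteratedDeriv n G z ≠ 0)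
    (hb : ∀ G : ℂ → ℂ, NN n η G → ∀ z : ℂ, |z.re| ≤ 1 / 100 → |z.im| ≤ 1 / 100 →
      iteratedDeriv n G z = 0 → z.re = 0 ∧ iteratedDeriv (n + 1) G z ≠ 0)
    (hg : ∀ G : ℂ → ℂ, NN n η G → ∀ y : ℝ, |y| ≤ 1 / 100 → iteratedDeriv n G (y * I) = 0 →
      ∃ h : ℝ, 0 < h ∧ n * h ≤ 4 ∧ |n * h - Real.pi| ≤ ε ∧
        iteratedDeriv n G ((y + h : ℝ) * I) = 0 ∧
        ∀ h' : ℝ, 0 < h' → h' < h → iteratedDeriv n G ((y + h' : ℝ) * I) ≠ 0)
    {s : ℂ} (hs : iteratedDeriv n F s = 0) (hG : ∀ j ≤ J, GJ2 F η T n j s.im)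
    (hfar : ∀ z : ℂ, iteratedDeriv n F z = 0 → |z.im - s.im| ≤ 1 → |z.re| ≤ 5 * ra T (2 ^ J * n)) :
    Fol F n (Real.log T / 2) ε s := by
  have hn' : (800 : ℝ) ≤ n := by exact_mod_cast hn
  have hn0 : (0 : ℝ) < n := by linarith
  have hlog : 0 < Real.log T := Real.log_pos (by linarith)
  obtain ⟨t', ht', hNN⟩ := hG 0 (Nat.zero_le _)
  simp only [pow_zero, one_mul] at ht' hNN
  have hr : 0 < ra T n := ra_pos hT hn0
  set r : ℝ := ra T n with hrd
  have hr' : ((r : ℝ) : ℂ) ≠ 0 := by exact_mod_cast hr.ne'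
  have hrj : ∀ j : ℕ, r ≤ ra T (2 ^ j * n) := by
    intro j
    have h1 : ra T (2 ^ j * n) = 2 ^ j * r := by
      rw [hrd]
      unfold ra
      ring
    rw [h1]
    exact le_mul_of_one_le_left hr.le (one_le_pow₀ (by norm_num))
  have hrn : 4 * r / n ≤ r / 200 := by
    rw [div_le_div_iff₀ hn0 (by norm_num)]
    nlinarith
  -- zeros near `s`
  have key : ∀ z : ℂ, iteratedDeriv n F z = 0 → s.im ≤ z.im → z.im ≤ s.im + 4 * r / n →
      z.re = 0 ∧ iteratedDeriv (n + 1) F z ≠ 0 := by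
    intro z hz h1 h2
    have h3 : |z.im - s.im| ≤ r / 200 := by
      rw [abs_of_nonneg (by linarith)]
      linarith
    have hLoc : Loc F η T n 0 J z.im := by
      intro j _ hj
      obtain ⟨t2, h4, h5⟩ := hG j hj
      refine ⟨t2, ?_, h5⟩
      have h6 : |z.im - t2| ≤ |z.im - s.im| + |s.im - t2| := abs_sub_le _ _ _
      have h7 := hrj j
      linarith
    rcases hA z hz hLoc with h | h
    · simp only [pow_zero, one_mul] at h
      obtain ⟨e1, e2, e3⟩ := coord (t' := t') (s := z) hr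
      have hz0 : iteratedDeriv n (fun z => F (I * t' + (r : ℝ) * z)) ((z - I * t') / (r : ℝ)) = 0 := by
        rw [iter_comp hF, e1, hz, mul_zero]
      have him : |((z - I * t') / ((r : ℝ) : ℂ)).im| ≤ 1 / 100 := by
        rw [e3, abs_div, abs_of_pos hr, div_le_iff₀ hr]
        have h6 : |z.im - t'| ≤ |z.im - s.im| + |s.im - t'| := abs_sub_le _ _ _
        linarith
      have hre : |((z - I * t') / ((r : ℝ) : ℂ)).re| ≤ 5 := by
        rw [e2, abs_div, abs_of_pos hr, div_le_iff₀ hr]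
        exact h
      rcases le_or_gt (1 / 100) |((z - I * t') / ((r : ℝ) : ℂ)).re| with h4 | h4
      · exact absurd hz0 (ha _ hNN _ h4 hre him)
      · obtain ⟨h5, h6⟩ := hb _ hNN _ h4.le him hz0
        rw [e2, div_eq_zero_iff] at h5
        rw [iter_comp hF, e1] at h6
        exact ⟨h5.resolve_right hr.ne', fun h7 => h6 (by rw [h7, mul_zero])⟩
    · exfalso
      have h4 := hfar z hz (by linarith)
      linarith
  obtain ⟨hs0, hs1⟩ := key s hs le_rfl (by
    have : 0 < 4 * r / n := by positivity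
    linarith)
  have hsI : s = s.im * I := by
    apply Complex.ext
    · simp [hs0]
    · simp
  -- the local coordinate on the line
  have hline : ∀ h : ℝ, iteratedDeriv n (fun z => F (I * t' + (r : ℝ) * z))
      (((s.im - t') / r + h : ℝ) * I) = r ^ n * iteratedDeriv n F (s + (r * h : ℝ) * I) := by
    intro h
    rw [iter_comp hF]
    congr 2
    rw [hsI]
    push_cast
    simp only [Complex.add_im, Complex.mul_im, Complex.ofReal_re, Complex.ofReal_im, Complex.I_re,
      Complex.I_im, mul_one, mul_zero, zero_mul, add_zero, zero_add]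
    field_simp
    ring
  have hrn0 : ((r : ℝ) : ℂ) ^ n ≠ 0 := pow_ne_zero _ hr'
  have hy : |(s.im - t') / r| ≤ 1 / 100 := by
    rw [abs_div, abs_of_pos hr, div_le_iff₀ hr]
    linarith
  obtain ⟨h, hh0, hh4, hhπ, hh1, hh2⟩ := hg _ hNN ((s.im - t') / r) hy (by
    have h1 := hline 0
    rw [add_zero, mul_zero, Complex.ofReal_zero, zero_mul, add_zero, hs, mul_zero] at h1
    exact h1)
  have hg1 : iteratedDeriv n F (s + (r * h : ℝ) * I) = 0 := by
    rw [hline] at hh1
    exact (mul_eq_zero.1 hh1).resolve_left hrn0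
  have hgle : r * h ≤ 4 * r / n := by
    rw [le_div_iff₀ hn0]
    nlinarith
  have hg0 : 0 < r * h := mul_pos hr hh0
  refine ⟨hs0, hs1, r * h, hg0, ?_, hg1, ?_, ?_⟩
  · have e : r * h * (Real.log T / 2) = n * h := by
      rw [hrd]
      unfold ra
      field_simp
    rw [e]
    exact hhπ
  · refine (key _ hg1 ?_ ?_).2
    · simp only [Complex.add_im, Complex.mul_im, Complex.ofReal_re, Complex.ofReal_im,
        Complex.I_re, Complex.I_im, mul_one, mul_zero, add_zero]
      linarith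
    · simp only [Complex.add_im, Complex.mul_im, Complex.ofReal_re, Complex.ofReal_im,
        Complex.I_re, Complex.I_im, mul_one, mul_zero, add_zero]
      linarith
  · intro z hz h1 h2
    obtain ⟨hz0, -⟩ := key z hz h1 (by linarith)
    by_contra hcon
    push Not at hcon
    obtain ⟨hc1, hc2⟩ := hcon
    have h3 : s.im ≠ z.im := by
      intro h4
      apply hc1
      apply Complex.ext
      · rw [hz0, hs0]
      · exact h4.symm
    have h4 : z.im ≠ s.im + r * h := by
      intro h5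
      apply hc2
      apply Complex.ext
      · simp [hz0, hs0]
      · simp [h5]
    have h5 : 0 < (z.im - s.im) / r := div_pos (by
      have := lt_of_le_of_ne h1 h3
      linarith) hr
    have h6 : (z.im - s.im) / r < h := by
      rw [div_lt_iff₀ hr]
      have := lt_of_le_of_ne h2 h4
      linarith
    apply hh2 _ h5 h6
    rw [hline]
    have e : s + (r * ((z.im - s.im) / r) : ℝ) * I = z := by
      rw [mul_div_cancel₀ _ hr.ne']
      apply Complex.ext
      · simp [hz0, hs0]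
      · simp
    rw [e, hz, mul_zero]

end Pool.Agent.P8H87.DS
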